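import Pool.Agent.helper61.CSW.W.SpecW

/-! # csw:VFS (MP_70a088_an, class S): the vector field identity (helper12) -/

set_option autoImplicit false

open Complex Metric Set Filter Topology MeasureTheory
open YPPS (fd fdd pre TT CV IsCyc rho Exact)
open MPS (BB)
open Pool.Agent.helper98.ILF (juliaSet fatouSet)

noncomputable section

open CSS (SE SV JJ)

namespace YW

/-- algebra of the kernels. -/
theorem VFS_alg (A B₁ B₂ x p₁ p₂ z : ℂ) (s : Finset ℂ) (σ : ℂ → ℂ) (hp : p₁ ≠ p₂)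
    (h0 : A + B₁ + B₂ + ∑ v ∈ s, σ v = 0) (h1 : A * x + B₁ * p₁ + B₂ * p₂ + ∑ v ∈ s, σ v * v = 0) :
    A / (z - x) + B₁ / (z - p₁) + B₂ / (z - p₂) + ∑ v ∈ s, σ v / (z - v) =
    A * (1 / (z - x) - (x - p₂) / (p₁ - p₂) / (z - p₁) - (x - p₁) / (p₂ - p₁) / (z - p₂)) +
      ∑ v ∈ s, σ v * (1 / (z - v) - (v - p₂) / (p₁ - p₂) / (z - p₁) - (v - p₁) / (p₂ - p₁) / (z - p₂)) := by
  have h12 : p₁ - p₂ ≠ 0 := sub_ne_zero.2 hp
  have h21 : p₂ - p₁ ≠ 0 := sub_ne_zero.2 hp.symm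
  set u₁ : ℂ := (z - p₁)⁻¹ with hu1
  set u₂ : ℂ := (z - p₂)⁻¹ with hu2
  have e1 : ∑ v ∈ s, σ v * (1 / (z - v) - (v - p₂) / (p₁ - p₂) / (z - p₁) - (v - p₁) / (p₂ - p₁) / (z - p₂)) =
      ∑ v ∈ s, σ v / (z - v) - (∑ v ∈ s, σ v * v - (∑ v ∈ s, σ v) * p₂) / (p₁ - p₂) * u₁ -
        (∑ v ∈ s, σ v * v - (∑ v ∈ s, σ v) * p₁) / (p₂ - p₁) * u₂ := by
    have h3 : ∀ v ∈ s, σ v * (1 / (z - v) - (v - p₂) / (p₁ - p₂) / (z - p₁) - (v - p₁) / (p₂ - p₁) / (z - p₂)) =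
        σ v / (z - v) - (σ v * v - σ v * p₂) * ((p₁ - p₂)⁻¹ * u₁) - (σ v * v - σ v * p₁) * ((p₂ - p₁)⁻¹ * u₂) := by
      intro v _
      rw [hu1, hu2]
      ring
    rw [Finset.sum_congr rfl h3, Finset.sum_sub_distrib, Finset.sum_sub_distrib, ← Finset.sum_mul, ← Finset.sum_mul,
      Finset.sum_sub_distrib, Finset.sum_sub_distrib, ← Finset.sum_mul, ← Finset.sum_mul]
    ring
  rw [e1]
  have h2 : ∑ v ∈ s, σ v = -(A + B₁ + B₂) := by linear_combination h0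
  have h3 : ∑ v ∈ s, σ v * v = -(A * x + B₁ * p₁ + B₂ * p₂) := by linear_combination h1
  rw [h2, h3]
  have e2 : (-(A * x + B₁ * p₁ + B₂ * p₂) - -(A + B₁ + B₂) * p₂) / (p₁ - p₂) = -(A * (x - p₂) / (p₁ - p₂)) - B₁ := by
    field_simp
    ring
  have e3 : (-(A * x + B₁ * p₁ + B₂ * p₂) - -(A + B₁ + B₂) * p₁) / (p₂ - p₁) = -(A * (x - p₁) / (p₂ - p₁)) - B₂ := by
    field_simp
    ring
  rw [e2, e3]
  have e4 : B₁ / (z - p₁) = B₁ * u₁ := by rw [hu1, div_eq_mul_inv]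
  have e5 : B₂ / (z - p₂) = B₂ * u₂ := by rw [hu2, div_eq_mul_inv]
  have e6 : (x - p₂) / (p₁ - p₂) / (z - p₁) = (x - p₂) / (p₁ - p₂) * u₁ := by rw [hu1, div_eq_mul_inv]
  have e7 : (x - p₁) / (p₂ - p₁) / (z - p₂) = (x - p₁) / (p₂ - p₁) * u₂ := by rw [hu2, div_eq_mul_inv]
  rw [e4, e5, e6, e7]
  ring

theorem VFS (hKXP : KXP_stmt) (hGDU : GDU_stmt) (hTRE : CSS.TRE_stmt) (hTIN : CSS.TIN_stmt) (hTRM : CSS.TRM_stmt)
    (hCPF : BR.CPF_stmt) : VFS_stmt := by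
  intro f X a
  obtain ⟨hKI, -, -, -⟩ := hKXP f X
  have h12 : X.p₁ - X.p₂ ≠ 0 := sub_ne_zero.2 X.ne
  have h21 : X.p₂ - X.p₁ ≠ 0 := sub_ne_zero.2 X.ne.symm
  set l₁ : ℂ := (a - X.p₂) / (X.p₁ - X.p₂) with hl1
  set l₂ : ℂ := (a - X.p₁) / (X.p₂ - X.p₁) with hl2
  -- the kernel as a sum
  have hK : KX X a = fun z : ℂ => ∑ i : Fin 3, (![1, -l₁, -l₂] i) / (z - ![a, X.p₁, X.p₂] i) := by
    funext z
    rw [Fin.sum_univ_three]
    simp only [KX, Matrix.cons_val_zero, Matrix.cons_val_one, Matrix.cons_val]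
    rw [← hl1, ← hl2]
    ring
  obtain ⟨σ, hσ⟩ := hTRE f (Fin 3) Finset.univ ![1, -l₁, -l₂] ![a, X.p₁, X.p₂] (by
    have := hKI a
    rw [hK] at this
    exact this)
  refine ⟨σ, ?_⟩
  -- the a.e. identity
  set A : ℂ := 1 / fd f a with hA
  set B₁ : ℂ := -l₁ / fd f X.p₁ with hB1
  set B₂ : ℂ := -l₂ / fd f X.p₂ with hB2
  have hfin : (CV f ∪ {f.eval a, X.p₁, X.p₂}).Finite := (YPPS.CV_fin f).union (Set.toFinite _)
  have hT : ∀ᵐ z : ℂ, TT f (KX X a) z =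
      A / (z - f.eval a) + B₁ / (z - X.p₁) + B₂ / (z - X.p₂) + ∑ v ∈ SV f, σ v / (z - v) := by
    have h0 : ∀ᵐ z : ℂ, z ∉ (CV f ∪ {f.eval a, X.p₁, X.p₂}) := measure_eq_zero_iff_ae_notMem.1 (hfin.measure_zero volume)
    filter_upwards [h0] with z hz
    simp only [Set.mem_union, Set.mem_insert_iff, Set.mem_singleton_iff, not_or] at hz
    obtain ⟨hz0, hz1, hz2, hz3⟩ := hz
    have h1 := hσ z hz0 (by
      intro i _
      fin_cases i
      · exact hz1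
      · show z ≠ f.eval X.p₁
        rw [X.fix1]; exact hz2
      · show z ≠ f.eval X.p₂
        rw [X.fix2]; exact hz3)
    rw [← hK, Fin.sum_univ_three] at h1
    rw [h1]
    simp only [Matrix.cons_val_zero, Matrix.cons_val_one, Matrix.cons_val, X.fix1, X.fix2]
    rfl
  have hTI : Integrable (TT f (KX X a)) := (hTIN f (KX X a) (hKI a)).2.1
  -- moments
  have hmom : A + B₁ + B₂ + ∑ v ∈ SV f, σ v = 0 ∧ A * f.eval a + B₁ * X.p₁ + B₂ * X.p₂ + ∑ v ∈ SV f, σ v * v = 0 := by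
    have h1 := hTRM (Fin 3 ⊕ ℂ) (Finset.univ.disjSum (SV f)) (Sum.elim ![A, B₁, B₂] σ) (Sum.elim ![f.eval a, X.p₁, X.p₂] id) (by
      refine hTI.congr ?_
      filter_upwards [hT] with z hz
      rw [hz, Finset.sum_disjSum, Fin.sum_univ_three]
      rfl)
    rw [Finset.sum_disjSum, Finset.sum_disjSum, Fin.sum_univ_three, Fin.sum_univ_three] at h1
    exact h1
  have hT2 : ∀ᵐ z : ℂ, TT f (KX X a) z = A * KX X (f.eval a) z + ∑ v ∈ SV f, σ v * KX X v z := by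
    filter_upwards [hT] with z hz
    rw [hz, VFS_alg A B₁ B₂ (f.eval a) X.p₁ X.p₂ z (SV f) σ X.ne hmom.1 hmom.2]
    rfl
  intro E μ w hF hp1 hp2
  have hbd : ∀ g : ℂ → ℂ, Integrable g → Integrable (fun z => μ z * g z) := by
    intro g hg
    refine hg.bdd_mul (c := 1) hF.meas.aestronglyMeasurable (Filter.Eventually.of_forall hF.bd)
  have hI1 : ∫ z : ℂ, μ z * TT f (KX X a) z = A * VX X μ (f.eval a) + ∑ v ∈ SV f, σ v * VX X μ v := by
    have e1 : ∫ z : ℂ, μ z * TT f (KX X a) z =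
        ∫ z : ℂ, (A * (μ z * KX X (f.eval a) z) + ∑ v ∈ SV f, σ v * (μ z * KX X v z)) := by
      apply integral_congr_ae
      filter_upwards [hT2] with z hz
      rw [hz, mul_add, Finset.mul_sum]
      congr 1
      · ring
      · exact Finset.sum_congr rfl fun v _ => by ring
    rw [e1, integral_add ((hbd _ (hKI _)).const_mul A) (integrable_finsetSum _ fun v _ => (hbd _ (hKI v)).const_mul _),
      integral_const_mul, integral_finsetSum _ fun v _ => (hbd _ (hKI v)).const_mul _]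
    congr 1
    exact Finset.sum_congr rfl fun v _ => by rw [integral_const_mul]; rfl
  have hwp : ∀ p : ℂ, f.eval p = p → p ∉ E → w p = 0 := by
    intro p hfp hpE
    by_contra hne
    have h1 : p ∈ tsupport w := subset_tsupport w hne
    exact hpE (hF.per p h1 1 le_rfl hfp)
  have hw1 := hwp X.p₁ X.fix1 hp1
  have hw2 := hwp X.p₂ X.fix2 hp2
  have hI2 : ∫ z : ℂ, BR.dbar w z * KX X a z = -Real.pi * w a := by
    obtain ⟨a1, a2⟩ := hCPF w a hF.wc hF.ws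
    obtain ⟨b1, b2⟩ := hCPF w X.p₁ hF.wc hF.ws
    obtain ⟨c1, c2⟩ := hCPF w X.p₂ hF.wc hF.ws
    have e1 : (fun z : ℂ => BR.dbar w z * KX X a z) = fun z =>
        BR.dbar w z / (z - a) - l₁ * (BR.dbar w z / (z - X.p₁)) - l₂ * (BR.dbar w z / (z - X.p₂)) := by
      funext z
      simp only [KX]
      rw [← hl1, ← hl2]
      ring
    have i1 : Integrable (fun z : ℂ => BR.dbar w z / (z - a) - l₁ * (BR.dbar w z / (z - X.p₁))) := a1.sub (b1.const_mul _)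
    rw [e1, integral_sub i1 (c1.const_mul _), integral_sub a1 (b1.const_mul _), integral_const_mul,
      integral_const_mul, a2, b2, c2, hw1, hw2]
    ring
  have hG := hGDU f E μ w (KX X a) hF (hKI a)
  rw [hI1, hI2] at hG
  have hpi : (Real.pi : ℂ) ≠ 0 := by exact_mod_cast Real.pi_ne_zero
  have e2 : 1 / (Real.pi : ℂ) * (-Real.pi * w a) = - w a := by field_simp
  rw [e2] at hG
  have e3 : (∫ z : ℂ, μ z * KX X a z) = VX X μ a := rfl
  rw [e3] at hG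
  rw [hG]
  ring

end YW
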